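import Pool.Agent.Helper74.DI.StM

set_option autoImplicit false

namespace Pool.Agent.Helper96.DI

open Pool.Agent.Helper74 Pool.Agent.Helper74.DI

/-- An operation, read with the switch on. -/
theorem oneOp (hSTB : StSTB) (hLPA : StLPA) (hLPB : StLPB) (w : List Op) (μ : ℕ)
    (hμ : μ ≤ w.length + 1) (x s : Bool) (j : ℕ) (hj : w[j]? = some (.op x s))
    (o : Bool → Bool) (v : Bool → ℕ) (hv : ∀ r, v r ≤ μ) :
    ∃ (o' : Bool → Bool) (v' : Bool → ℕ),
      Rch (sth dm w) (cf .sc true o (j + 1) v 0 μ) (cf .sc true o' (j + 2) v' 0 μ) ∧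
      (∀ r, v' r ≤ μ) ∧ v' (!x) = v (!x) ∧
      (v' x : ZMod (μ + 1)) = (v x : ZMod (μ + 1)) +
        (if s then 1 else -1) * (v (!x) : ZMod (μ + 1)) := by
  obtain ⟨o1, v1, hr1, h0, h1, h2⟩ :=
    hLPA w x s true (j + 2) μ hμ (v (!x)) o v 0 rfl hv (by simpa using hv (!x))
  have hr2 := hLPB w x s true o1 (j + 2) μ hμ (v (!x)) v1 h1 (by rw [h0]; simpa using hv (!x))
  refine ⟨o1, up (!x) (v (!x)) v1, ?_, ?_, ?_, ?_⟩
  · refine rch_head _ _ _ _ ((hSTB w true o j v 0 μ).2.2.2.2 x s hj) ?_
    refine rch_trans _ _ _ _ hr1 ?_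
    simpa [h0] using hr2
  · intro r
    unfold up
    split_ifs with h
    · exact hv _
    · have : r = x := by
        cases r <;> cases x <;> simp_all
      rw [this]; exact h1
  · simp [up]
  · have hne : x ≠ !x := by cases x <;> simp
    simp only [up, if_neg hne]
    exact h2

theorem hSCN (hSTB : StSTB) (hLPA : StLPA) (hLPB : StLPB) : StSCN := by
  intro w μ hμ z
  induction z with
  | nil =>
    intro u hw e o v c hv ht hf
    refine ⟨e, o, v, ?_, hv, by simpa [run] using ht, by simpa [run] using hf⟩
    have hl : u.length = w.length := by rw [hw]; simp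
    rw [hl]
    exact rch_step _ _ _ (hSTB w e o 0 v 0 μ).1
  | cons a z ih =>
    intro u hw e o v c hv ht hf
    have hw' : w = (u ++ [a]) ++ z := by rw [hw]; simp
    have hj : w[u.length]? = some a := by rw [hw]; simp
    have hlen : (u ++ [a]).length + 1 = u.length + 2 := by simp
    cases a with
    | nop =>
      obtain ⟨e', o', v', hr, h1, h2, h3⟩ := ih (u ++ [.nop]) hw' e o v c hv ht hf
      refine ⟨e', o', v', ?_, h1, ?_, ?_⟩
      · rw [hlen] at hr
        exact rch_head _ _ _ _ ((hSTB w e o u.length v 0 μ).2.1 hj) hr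
      · simpa [run, st1] using h2
      · simpa [run, st1] using h3
    | tog =>
      obtain ⟨e', o', v', hr, h1, h2, h3⟩ := ih (u ++ [.tog]) hw' (!e) o v c hv ht hf
      refine ⟨e', o', v', ?_, h1, ?_, ?_⟩
      · rw [hlen] at hr
        exact rch_head _ _ _ _ ((hSTB w e o u.length v 0 μ).2.2.1 hj) hr
      · simpa [run, st1] using h2
      · simpa [run, st1] using h3
    | op x s =>
      cases e with
      | false =>
        obtain ⟨e', o', v', hr, h1, h2, h3⟩ := ih (u ++ [.op x s]) hw' false o v c hv ht hf
        refine ⟨e', o', v', ?_, h1, ?_, ?_⟩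
        · rw [hlen] at hr
          exact rch_head _ _ _ _ ((hSTB w false o u.length v 0 μ).2.2.2.1 x s hj) hr
        · have : st1 (false, c) (.op x s) = (false, c) := by cases x <;> cases s <;> simp [st1]
          simp only [run, List.foldl_cons]
          rw [this]; exact h2
        · have : st1 (false, c) (.op x s) = (false, c) := by cases x <;> cases s <;> simp [st1]
          simp only [run, List.foldl_cons]
          rw [this]; exact h3
      | true =>
        obtain ⟨o1, v1, hr1, hb, hc, hd⟩ :=
          oneOp hSTB hLPA hLPB w μ hμ x s u.length hj o v hv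
        have key : (v1 true : ZMod (μ + 1)) = ((st1 (true, c) (.op x s)).2.1 : ZMod (μ + 1)) ∧
            (v1 false : ZMod (μ + 1)) = ((st1 (true, c) (.op x s)).2.2 : ZMod (μ + 1)) := by
          cases x <;> cases s <;> simp [st1] at hc hd ⊢ <;> rw [hc, hd] <;>
            simp [ht, hf] <;> ring
        obtain ⟨e', o', v', hr, h1, h2, h3⟩ := ih (u ++ [.op x s]) hw' true o1 v1
          (st1 (true, c) (.op x s)).2 hb key.1 key.2
        refine ⟨e', o', v', ?_, h1, ?_, ?_⟩
        · rw [hlen] at hr
          exact rch_trans _ _ _ _ hr1 hr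
        · have : (st1 (true, c) (.op x s)) = (true, (st1 (true, c) (.op x s)).2) := by
            cases x <;> cases s <;> simp [st1]
          simp only [run, List.foldl_cons]
          rw [this]; exact h2
        · have : (st1 (true, c) (.op x s)) = (true, (st1 (true, c) (.op x s)).2) := by
            cases x <;> cases s <;> simp [st1]
          simp only [run, List.foldl_cons]
          rw [this]; exact h3

end Pool.Agent.Helper96.DI
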